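import Mathlib
import Pool.Agent.W25.UB.Stm
import Pool.Agent.H361R2.Ana

/-! Project UB (helper25), task FT3: square of a sieve weight times two upper bound sieves. -/

set_option autoImplicit false

namespace Pool.Agent.W494.UB.FT3

open Finset Filter Topology
open Pool.Agent.W25.UN Pool.Agent.W25.UB
open Pool.Agent.H362R2.CM (IP prP)
open Pool.Agent.H410R2 (mulc lgt)
open Pool.Agent.W23.PL (DW Ev hat)

theorem tlog (C : ℝ) : ∀ᶠ N : ℕ in atTop, C ≤ Real.log N :=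
  (Real.tendsto_log_atTop.comp tendsto_natCast_atTop_atTop).eventually_ge_atTop C

theorem prods (c : ℝ) (hc : 0 ≤ c) : ∃ m : ℕ, ∀ᶠ N : ℕ in atTop,
    ∀ P : Finset ℕ, (∀ p ∈ P, p.Prime ∧ p ≤ N) →
      ∏ p ∈ P, (1 + c / (p : ℝ)) ≤ (Real.log N) ^ m := by
  obtain ⟨C, hC, m, h⟩ := Pool.Agent.H361R2.prodBound c hc
  refine ⟨m + 1, ?_⟩
  filter_upwards [tlog C, eventually_ge_atTop 3] with N hl hN P hP
  have hN3 : (3 : ℝ) ≤ N := by exact_mod_cast hN
  have hl0 : 0 ≤ Real.log N := Real.log_nonneg (by linarith)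
  have hb := h _ hN3
  rw [Nat.floor_natCast] at hb
  have hsub : P ⊆ (Icc 1 N).filter Nat.Prime := by
    intro p hp
    rw [Finset.mem_filter, Finset.mem_Icc]
    exact ⟨⟨(hP p hp).1.one_lt.le, (hP p hp).2⟩, (hP p hp).1⟩
  have hone : ∀ p : ℕ, (1 : ℝ) ≤ 1 + c / (p : ℝ) := fun p => by
    have : 0 ≤ c / (p : ℝ) := by positivity
    linarith
  calc ∏ p ∈ P, (1 + c / (p : ℝ)) ≤
        ∏ p ∈ (Icc 1 N).filter Nat.Prime, (1 + c / (p : ℝ)) := by
        rw [← Finset.prod_sdiff hsub]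
        have h1 : (1 : ℝ) ≤ ∏ p ∈ (Icc 1 N).filter Nat.Prime \ P, (1 + c / (p : ℝ)) := by
          calc (1 : ℝ) = ∏ _p ∈ (Icc 1 N).filter Nat.Prime \ P, (1 : ℝ) := by simp
            _ ≤ _ := Finset.prod_le_prod (fun _ _ => zero_le_one) (fun p _ => hone p)
        have h2 : (0 : ℝ) ≤ ∏ p ∈ P, (1 + c / (p : ℝ)) :=
          Finset.prod_nonneg fun p _ => by linarith [hone p]
        nlinarith
    _ ≤ C * (Real.log N) ^ m := hb
    _ ≤ Real.log N * (Real.log N) ^ m := by gcongr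
    _ = _ := by ring

theorem mulc_nn {k : ℕ} (P : Finset ℕ) (f : ℕ → ℝ) (hf : ∀ p ∈ P, 0 ≤ f p)
    (σ : IP P → Option (Option (Fin k))) : 0 ≤ mulc (prP P) f σ := by
  unfold mulc
  refine Finset.prod_nonneg fun t _ => ?_
  split_ifs
  · exact zero_le_one
  · exact hf _ t.2

theorem y0_le {k : ℕ} (P : Finset ℕ) (c : (IP P → Option (Option (Fin k))) → ℝ) (Cc Rc : ℝ)
    (hP : ∀ p ∈ P, p.Prime) (hCc : 0 ≤ Cc)
    (hc : ∀ σ, |c σ| ≤ Cc * mulc (prP P) (fun p => 1 / ((p : ℝ) - 1)) σ)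
    (hR : ∀ σ, c σ ≠ 0 → lgt (prP P) σ ≤ Rc) :
    ∑ σ, |c σ| * mulc (prP P) (fun p => (p : ℝ) + 1) σ ≤
      Cc * (Real.exp Rc * ∏ p ∈ P, (1 + 3 * ((k : ℝ) + 1) / (p : ℝ))) := by
  have hp1 : ∀ p ∈ P, (0 : ℝ) < (p : ℝ) - 1 := by
    intro p hp
    have : (2 : ℝ) ≤ (p : ℝ) := by exact_mod_cast (hP p hp).two_le
    linarith
  have hr := Pool.Agent.H410R2.rankin (J := Option (Fin k)) (prP P)
    (fun t => (hP t.1 t.2).two_le) Rc
  have e1 : ∏ t : IP P, (1 + 3 * (Fintype.card (Option (Fin k)) : ℝ) / (prP P t : ℝ)) =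
      ∏ p ∈ P, (1 + 3 * ((k : ℝ) + 1) / (p : ℝ)) := by
    rw [← Finset.prod_coe_sort P (fun p => 1 + 3 * ((k : ℝ) + 1) / (p : ℝ))]
    simp
  rw [e1] at hr
  refine le_trans ?_ (mul_le_mul_of_nonneg_left hr hCc)
  rw [Finset.mul_sum, Finset.sum_filter]
  apply Finset.sum_le_sum
  intro σ _
  by_cases h0 : c σ = 0
  · rw [h0]
    simp only [abs_zero, zero_mul]
    split_ifs
    · exact mul_nonneg hCc (mulc_nn P _ (fun p hp => by
        have := hp1 p hp
        positivity) σ)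
    · exact le_rfl
  · rw [if_pos (hR σ h0)]
    calc |c σ| * mulc (prP P) (fun p => (p : ℝ) + 1) σ ≤
          Cc * mulc (prP P) (fun p => 1 / ((p : ℝ) - 1)) σ *
            mulc (prP P) (fun p => (p : ℝ) + 1) σ :=
          mul_le_mul_of_nonneg_right (hc σ) (mulc_nn P _ (fun p _ => by positivity) σ)
      _ = Cc * mulc (prP P) (fun p => ((p : ℝ) + 1) / ((p : ℝ) - 1)) σ := by
          rw [mul_assoc]
          congr 1
          unfold mulc
          rw [← Finset.prod_mul_distrib]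
          apply Finset.prod_congr rfl
          intro t _
          split_ifs
          · simp
          · ring

theorem local_le (k : ℕ) (q : ℝ) (hq : 1 ≤ q) (p : ℕ) (hp : (p : ℝ) - 1 = q) :
    ∑ a : Option (Option (Fin k)), ∑ b : Option (Option (Fin k)),
      ((if a = none then 1 else 1 / q) * (if b = none then 1 else 1 / q) * |g1 p a b|) ≤
      1 + 9 * ((k : ℝ) + 2) ^ 2 / q := by
  have h0 : 0 < q := by linarith
  have key : ∀ i l : Option (Fin k), (1 / q) * (1 / q) * |g1 p (some i) (some l)| ≤ 1 / q := by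
    intro i l
    have h1 : |g1 p (some i) (some l)| ≤ q := by
      show |if i = l then (p : ℝ) - 1 else -1| ≤ q
      split_ifs
      · rw [hp, abs_of_pos h0]
      · simpa using hq
    calc (1 / q) * (1 / q) * |g1 p (some i) (some l)| ≤ (1 / q) * (1 / q) * q := by gcongr
      _ = 1 / q := by field_simp
  rw [Fintype.sum_option]
  have e1 : ∑ b : Option (Option (Fin k)),
      ((if (none : Option (Option (Fin k))) = none then 1 else 1 / q) *
        (if b = none then 1 else 1 / q) * |g1 p none b|) = 1 := by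
    rw [Fintype.sum_option]
    simp [g1]
  have e2 : ∀ i : Option (Fin k), ∑ b : Option (Option (Fin k)),
      ((if some i = none then 1 else 1 / q) *
        (if b = none then 1 else 1 / q) * |g1 p (some i) b|) ≤ ((k : ℝ) + 1) * (1 / q) := by
    intro i
    rw [Fintype.sum_option]
    have : (if some i = none then 1 else 1 / q) *
        (if (none : Option (Option (Fin k))) = none then 1 else 1 / q) *
          |g1 p (some i) (none : Option (Option (Fin k)))| = 0 := by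
      simp [g1]
    rw [this, zero_add]
    calc ∑ l : Option (Fin k), ((if some i = none then 1 else 1 / q) *
        (if some l = none then 1 else 1 / q) * |g1 p (some i) (some l)|) ≤
          ∑ _l : Option (Fin k), 1 / q := by
          apply Finset.sum_le_sum
          intro l _
          simpa using key i l
      _ = _ := by
          rw [Finset.sum_const, nsmul_eq_mul]
          simp
  rw [e1]
  have h3 : ∑ i : Option (Fin k), ∑ b : Option (Option (Fin k)),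
      ((if some i = none then 1 else 1 / q) *
        (if b = none then 1 else 1 / q) * |g1 p (some i) b|) ≤
      ((k : ℝ) + 1) * (((k : ℝ) + 1) * (1 / q)) := by
    calc _ ≤ ∑ _i : Option (Fin k), ((k : ℝ) + 1) * (1 / q) :=
          Finset.sum_le_sum fun i _ => e2 i
      _ = _ := by
          rw [Finset.sum_const, nsmul_eq_mul]
          simp
  have h4 : ((k : ℝ) + 1) * (((k : ℝ) + 1) * (1 / q)) ≤ 9 * ((k : ℝ) + 2) ^ 2 / q := by
    have e : ((k : ℝ) + 1) * (((k : ℝ) + 1) * (1 / q)) = ((k : ℝ) + 1) ^ 2 / q := by ring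
    rw [e]
    have hk : (0 : ℝ) ≤ k := Nat.cast_nonneg k
    gcongr
    nlinarith
  linarith

theorem q1f_le {k : ℕ} (P : Finset ℕ) (c : (IP P → Option (Option (Fin k))) → ℝ) (Cc : ℝ)
    (hP : ∀ p ∈ P, p.Prime) (hCc : 0 ≤ Cc)
    (hc : ∀ σ, |c σ| ≤ Cc * mulc (prP P) (fun p => 1 / ((p : ℝ) - 1)) σ) :
    |Q1f (prP P) c| ≤ Cc ^ 2 * ∏ p ∈ P, (1 + 9 * ((k : ℝ) + 2) ^ 2 / ((p : ℝ) - 1)) := by
  have hp1 : ∀ t : IP P, (1 : ℝ) ≤ (prP P t : ℝ) - 1 := by
    intro t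
    have : (2 : ℝ) ≤ (t.1 : ℝ) := by exact_mod_cast (hP t.1 t.2).two_le
    show (1 : ℝ) ≤ (t.1 : ℝ) - 1
    linarith
  have hv : ∀ (t : IP P) (a : Option (Option (Fin k))),
      (0 : ℝ) ≤ (if a = none then 1 else 1 / ((prP P t : ℝ) - 1)) := by
    intro t a
    have := hp1 t
    split_ifs <;> positivity
  calc |Q1f (prP P) c| ≤ ∑ σ, ∑ τ, |c σ| * |c τ| * ∏ t, |g1 (prP P t) (σ t) (τ t)| := by
        unfold Q1f
        refine (Finset.abs_sum_le_sum_abs _ _).trans (Finset.sum_le_sum fun σ _ => ?_)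
        refine (Finset.abs_sum_le_sum_abs _ _).trans (Finset.sum_le_sum fun τ _ => ?_)
        rw [abs_mul, abs_mul, Finset.abs_prod]
    _ ≤ ∑ σ : IP P → Option (Option (Fin k)), ∑ τ : IP P → Option (Option (Fin k)),
          (Cc * ∏ t, (if σ t = none then 1 else 1 / ((prP P t : ℝ) - 1))) *
          (Cc * ∏ t, (if τ t = none then 1 else 1 / ((prP P t : ℝ) - 1))) *
          ∏ t, |g1 (prP P t) (σ t) (τ t)| := by
        refine Finset.sum_le_sum fun σ _ => Finset.sum_le_sum fun τ _ => ?_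
        refine mul_le_mul_of_nonneg_right ?_ (Finset.prod_nonneg fun _ _ => abs_nonneg _)
        exact mul_le_mul (hc σ) (hc τ) (abs_nonneg _)
          (mul_nonneg hCc (Finset.prod_nonneg fun t _ => hv t _))
    _ = Cc ^ 2 * ∑ σ : IP P → Option (Option (Fin k)), ∑ τ : IP P → Option (Option (Fin k)),
          ∏ t, ((if σ t = none then 1 else 1 / ((prP P t : ℝ) - 1)) *
            (if τ t = none then 1 else 1 / ((prP P t : ℝ) - 1)) *
            |g1 (prP P t) (σ t) (τ t)|) := by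
        rw [Finset.mul_sum]
        refine Finset.sum_congr rfl fun σ _ => ?_
        rw [Finset.mul_sum]
        refine Finset.sum_congr rfl fun τ _ => ?_
        rw [Finset.prod_mul_distrib, Finset.prod_mul_distrib]
        ring
    _ = Cc ^ 2 * ∏ t : IP P, ∑ a : Option (Option (Fin k)), ∑ b : Option (Option (Fin k)),
          ((if a = none then 1 else 1 / ((prP P t : ℝ) - 1)) *
            (if b = none then 1 else 1 / ((prP P t : ℝ) - 1)) *
            |g1 (prP P t) a b|) := by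
        congr 1
        rw [← Pool.Agent.H410R2.sum_prod_local (fun (t : IP P) (a : Option (Option (Fin k))) =>
          ∑ b : Option (Option (Fin k)),
          ((if a = none then 1 else 1 / ((prP P t : ℝ) - 1)) *
            (if b = none then 1 else 1 / ((prP P t : ℝ) - 1)) *
            |g1 (prP P t) a b|))]
        refine Finset.sum_congr rfl fun σ _ => ?_
        exact Pool.Agent.H410R2.sum_prod_local (fun (t : IP P) (b : Option (Option (Fin k))) =>
          ((if σ t = none then 1 else 1 / ((prP P t : ℝ) - 1)) *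
            (if b = none then 1 else 1 / ((prP P t : ℝ) - 1)) *
            |g1 (prP P t) (σ t) b|))
    _ ≤ Cc ^ 2 * ∏ t : IP P, (1 + 9 * ((k : ℝ) + 2) ^ 2 / ((prP P t : ℝ) - 1)) := by
        refine mul_le_mul_of_nonneg_left ?_ (sq_nonneg _)
        refine Finset.prod_le_prod ?_ ?_
        · intro t _
          exact Finset.sum_nonneg fun a _ => Finset.sum_nonneg fun b _ =>
            mul_nonneg (mul_nonneg (hv t a) (hv t b)) (abs_nonneg _)
        · intro t _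
          exact local_le k _ (hp1 t) _ rfl
    _ = _ := by
        rw [← Finset.prod_coe_sort P (fun p => 1 + 9 * ((k : ℝ) + 2) ^ 2 / ((p : ℝ) - 1))]

theorem prod9_le (k : ℕ) (P : Finset ℕ) (hP : ∀ p ∈ P, p.Prime) :
    ∏ p ∈ P, (1 + 9 * ((k : ℝ) + 2) ^ 2 / ((p : ℝ) - 1)) ≤
      ∏ p ∈ P, (1 + 18 * ((k : ℝ) + 2) ^ 2 / (p : ℝ)) := by
  have hp2 : ∀ p ∈ P, (2 : ℝ) ≤ (p : ℝ) := fun p hp => by exact_mod_cast (hP p hp).two_le
  refine Finset.prod_le_prod ?_ ?_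
  · intro p hp
    have := hp2 p hp
    have h1 : (0 : ℝ) < (p : ℝ) - 1 := by linarith
    positivity
  · intro p hp
    have h2 := hp2 p hp
    have h1 : (0 : ℝ) < (p : ℝ) - 1 := by linarith
    have h3 : 9 * ((k : ℝ) + 2) ^ 2 / ((p : ℝ) - 1) ≤ 18 * ((k : ℝ) + 2) ^ 2 / (p : ℝ) := by
      rw [div_le_div_iff₀ h1 (by linarith)]
      have : (0 : ℝ) ≤ ((k : ℝ) + 2) ^ 2 := by positivity
      nlinarith
    linarith

theorem omega_le (n N : ℕ) (hn : 1 ≤ n) (h : n ≤ N * N) (hN : 1 ≤ N) :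
    (n.primeFactors.card : ℝ) ≤ 4 * Real.log N := by
  have h1 : 2 ^ n.primeFactors.card ≤ n := by
    calc 2 ^ n.primeFactors.card = ∏ _p ∈ n.primeFactors, 2 := by rw [Finset.prod_const]
      _ ≤ ∏ p ∈ n.primeFactors, p := by
          refine Finset.prod_le_prod (fun _ _ => by norm_num) fun p hp => ?_
          exact (Nat.prime_of_mem_primeFactors hp).two_le
      _ ≤ n := Nat.le_of_dvd hn (Nat.prod_primeFactors_dvd n)
  have hN0 : (0 : ℝ) < N := by exact_mod_cast hN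
  have h2 : ((2 : ℝ) ^ n.primeFactors.card) ≤ (N : ℝ) * N := by
    exact_mod_cast h1.trans h
  have h3 := Real.log_le_log (by positivity) h2
  rw [Real.log_pow, Real.log_mul hN0.ne' hN0.ne'] at h3
  have h4 := Real.log_two_gt_d9
  have h5 : (0 : ℝ) ≤ n.primeFactors.card := Nat.cast_nonneg _
  nlinarith

theorem hsum (D N : ℕ) (hD : D ≤ N) : ∑ e ∈ Icc 1 D, 1 / (e : ℝ) ≤ 1 + Real.log N := by
  have h1 := harmonic_le_one_add_log N
  rw [harmonic_eq_sum_Icc] at h1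
  push_cast at h1
  calc ∑ e ∈ Icc 1 D, 1 / (e : ℝ) ≤ ∑ e ∈ Icc 1 N, 1 / (e : ℝ) :=
        Finset.sum_le_sum_of_subset_of_nonneg (Finset.Icc_subset_Icc_right hD)
          (fun _ _ _ => by positivity)
    _ ≤ _ := by simpa [one_div] using h1

theorem msum (D l : ℕ) (hl : 1 ≤ l) : ∑ e ∈ Icc 1 D, (if l ∣ e then 1 / (e : ℝ) else 0) ≤
    (1 / l) * ∑ f ∈ Icc 1 D, 1 / (f : ℝ) := by
  rw [← Finset.sum_filter]
  calc ∑ e ∈ (Icc 1 D).filter (fun e => l ∣ e), 1 / (e : ℝ) ≤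
        ∑ e ∈ (Icc 1 D).image (fun f => l * f), 1 / (e : ℝ) := by
        apply Finset.sum_le_sum_of_subset_of_nonneg
        · intro e he
          rw [Finset.mem_filter, Finset.mem_Icc] at he
          obtain ⟨⟨h1, h2⟩, f, rfl⟩ := he
          rw [Finset.mem_image]
          refine ⟨f, ?_, rfl⟩
          rw [Finset.mem_Icc]
          constructor
          · rcases Nat.eq_zero_or_pos f with h0 | h0
            · subst h0; simp at h1
            · exact h0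
          · exact (Nat.le_mul_of_pos_left f hl).trans h2
        · intro _ _ _
          positivity
    _ = ∑ f ∈ Icc 1 D, 1 / ((l * f : ℕ) : ℝ) :=
        Finset.sum_image (fun a _ b _ h => Nat.eq_of_mul_eq_mul_left hl h)
    _ = _ := by
        rw [Finset.mul_sum]
        refine Finset.sum_congr rfl fun f _ => ?_
        push_cast
        rw [one_div_mul_one_div]

theorem lsum (Pt : Finset ℕ) (D' : ℝ) (hD' : 2 ≤ D') (h : ∀ p ∈ Pt, D' ≤ (p : ℝ)) :
    ∑ l ∈ Pt, (1 / (l : ℝ)) ^ 2 ≤ 2 / D' := by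
  have hd : 1 ≤ ⌈D'⌉₊ := Nat.one_le_ceil_iff.2 (by linarith)
  obtain ⟨K, hK⟩ : ∃ K, ⌈D'⌉₊ = K + 1 := ⟨⌈D'⌉₊ - 1, by omega⟩
  have h1 := sum_Ioo_inv_sq_le (α := ℝ) K (Pt.sup id + 1)
  calc ∑ l ∈ Pt, (1 / (l : ℝ)) ^ 2 ≤ ∑ l ∈ Ioo K (Pt.sup id + 1), (1 / (l : ℝ)) ^ 2 := by
        apply Finset.sum_le_sum_of_subset_of_nonneg
        · intro p hp
          rw [Finset.mem_Ioo]
          have h2 : ⌈D'⌉₊ ≤ p := Nat.ceil_le.2 (h p hp)
          have h3 : p ≤ Pt.sup id := Finset.le_sup (f := id) hp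
          omega
        · intro _ _ _
          positivity
    _ ≤ 2 / ((K : ℝ) + 1) := by
        simpa [one_div, inv_pow] using h1
    _ ≤ 2 / D' := by
        have h2 : D' ≤ (K : ℝ) + 1 := by
          have := Nat.le_ceil D'
          rw [hK] at this
          exact_mod_cast this
        gcongr

/-- the pairs which are not coprime -/
theorem bad_le (D N : ℕ) (hDN : D ≤ N) (Pt : Finset ℕ) (D' : ℝ) (hD' : 2 ≤ D')
    (h : ∀ p ∈ Pt, D' ≤ (p : ℝ)) (hp1 : ∀ p ∈ Pt, 1 ≤ p) (U : Finset (ℕ × ℕ))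
    (hU : U ⊆ Icc 1 D ×ˢ Icc 1 D) (hU2 : ∀ x ∈ U, ∃ l ∈ Pt, l ∣ x.1 ∧ l ∣ x.2) :
    ∑ x ∈ U, 1 / ((x.1 : ℝ) * x.2) ≤ (1 + Real.log N) ^ 2 * (2 / D') := by
  have hnn : ∀ (l : ℕ) (e : ℕ), (0 : ℝ) ≤ (if l ∣ e then 1 / (e : ℝ) else 0) := by
    intro l e
    split_ifs <;> positivity
  have hH : (0 : ℝ) ≤ ∑ f ∈ Icc 1 D, 1 / (f : ℝ) := Finset.sum_nonneg fun _ _ => by positivity
  calc ∑ x ∈ U, 1 / ((x.1 : ℝ) * x.2) ≤ ∑ x ∈ U, ∑ l ∈ Pt,
        (if l ∣ x.1 then 1 / (x.1 : ℝ) else 0) * (if l ∣ x.2 then 1 / (x.2 : ℝ) else 0) := by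
        refine Finset.sum_le_sum fun x hx => ?_
        obtain ⟨l, hl, h1, h2⟩ := hU2 x hx
        refine le_trans ?_ (Finset.single_le_sum (f := fun l : ℕ =>
          (if l ∣ x.1 then 1 / (x.1 : ℝ) else 0) * (if l ∣ x.2 then 1 / (x.2 : ℝ) else 0))
          (fun l _ => mul_nonneg (hnn l _) (hnn l _)) hl)
        simp only [h1, h2, if_true]
        rw [one_div_mul_one_div]
    _ ≤ ∑ x ∈ Icc 1 D ×ˢ Icc 1 D, ∑ l ∈ Pt,
        (if l ∣ x.1 then 1 / (x.1 : ℝ) else 0) * (if l ∣ x.2 then 1 / (x.2 : ℝ) else 0) :=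
        Finset.sum_le_sum_of_subset_of_nonneg hU fun x _ _ =>
          Finset.sum_nonneg fun l _ => mul_nonneg (hnn l _) (hnn l _)
    _ = ∑ l ∈ Pt, (∑ e ∈ Icc 1 D, (if l ∣ e then 1 / (e : ℝ) else 0)) ^ 2 := by
        rw [Finset.sum_comm]
        refine Finset.sum_congr rfl fun l _ => ?_
        rw [pow_two, Finset.sum_mul_sum, Finset.sum_product]
    _ ≤ ∑ l ∈ Pt, (1 + Real.log N) ^ 2 * (1 / (l : ℝ)) ^ 2 := by
        refine Finset.sum_le_sum fun l hl => ?_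
        rw [← mul_pow]
        refine pow_le_pow_left₀ (Finset.sum_nonneg fun e _ => hnn l e) ?_ 2
        refine (msum D l (hp1 l hl)).trans ?_
        rw [mul_comm]
        exact mul_le_mul_of_nonneg_right (hsum D N hDN) (by positivity)
    _ = (1 + Real.log N) ^ 2 * ∑ l ∈ Pt, (1 / (l : ℝ)) ^ 2 := by rw [Finset.mul_sum]
    _ ≤ _ := mul_le_mul_of_nonneg_left (lsum Pt D' hD' h) (sq_nonneg _)

theorem all_le (D N : ℕ) (hDN : D ≤ N) (T : Finset (ℕ × ℕ)) (hT : T ⊆ Icc 1 D ×ˢ Icc 1 D) :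
    ∑ x ∈ T, 1 / ((x.1 : ℝ) * x.2) ≤ (1 + Real.log N) ^ 2 := by
  calc ∑ x ∈ T, 1 / ((x.1 : ℝ) * x.2) ≤ ∑ x ∈ Icc 1 D ×ˢ Icc 1 D, 1 / ((x.1 : ℝ) * x.2) :=
        Finset.sum_le_sum_of_subset_of_nonneg hT fun x _ _ => by positivity
    _ = (∑ e ∈ Icc 1 D, 1 / (e : ℝ)) ^ 2 := by
        rw [pow_two, Finset.sum_mul_sum, Finset.sum_product]
        refine Finset.sum_congr rfl fun x _ => Finset.sum_congr rfl fun y _ => ?_
        rw [one_div_mul_one_div]
    _ ≤ _ := pow_le_pow_left₀ (Finset.sum_nonneg fun _ _ => by positivity) (hsum D N hDN) 2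

theorem main (hEXM : St_EXM) (hFT1 : St_FT1) (hFT2 : St_FT2) : St_FT3 := by
  intro k
  obtain ⟨m1, h1⟩ := prods (3 * ((k : ℝ) + 1)) (by positivity)
  obtain ⟨m2, h2⟩ := prods (18 * ((k : ℝ) + 2) ^ 2) (by positivity)
  obtain ⟨N₀, hN₀⟩ := eventually_atTop.1 ((h1.and h2).and
    ((tlog (72 * ((k : ℝ) + 2) ^ 2 + 4)).and (eventually_ge_atTop 3)))
  refine ⟨m2 + 2 * m1 + 9, N₀, ?_⟩
  intro N hN u w P Pt c j j' Rc Cc D' D th th' hjj hD' hPP hCc hDN hc hR hth hth' ha ha'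
  obtain ⟨⟨hb1, hb2⟩, hB, hN3⟩ := hN₀ N hN
  have hPpr : ∀ p ∈ P, p.Prime := fun p hp => (hPP p (Finset.mem_union_left _ hp)).1.1
  have hPtpr : ∀ p ∈ Pt, p.Prime := fun p hp => (hPP p (Finset.mem_union_right _ hp)).1.1
  have hPN : ∀ p ∈ P, p.Prime ∧ p ≤ N := by
    intro p hp
    have := (hPP p (Finset.mem_union_left _ hp)).2.2
    exact ⟨hPpr p hp, by exact_mod_cast this⟩
  have hPi1 := hb1 P hPN
  have hPi2 := (prod9_le k P hPpr).trans (hb2 P hPN)
  set B := Real.log N with hBdef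
  have hk : (0 : ℝ) ≤ ((k : ℝ) + 2) ^ 2 := by positivity
  have hB4 : 4 ≤ B := by linarith
  have hB0 : 0 ≤ B := by linarith
  have hD0 : 0 < D' := by linarith
  have hCc0 : 0 ≤ Cc := by linarith
  classical
  set T : Finset (ℕ × ℕ) := (Icc 1 D ×ˢ Icc 1 D).filter
    (fun x => Nat.Coprime x.1 x.2 ∧ th x.1 ≠ 0 ∧ th' x.2 ≠ 0) with hT
  set U : Finset (ℕ × ℕ) := (Icc 1 D ×ˢ Icc 1 D).filter
    (fun x => ¬ Nat.Coprime x.1 x.2 ∧ th x.1 ≠ 0 ∧ th' x.2 ≠ 0) with hU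
  -- the hypotheses of FT1
  have key := fun (x : ℕ × ℕ) (hx1 : th x.1 ≠ 0) (hx2 : th' x.2 ≠ 0) =>
    hFT1 k u w P c j j' x.1 x.2 Rc (fun p => p ∈ P ∪ Pt) hjj
      (fun p hp => ⟨(hPP p (Finset.mem_union_left _ hp)).1, Finset.mem_union_left _ hp⟩)
      (hth.supp x.1 hx1).1 (hth'.supp x.2 hx2).1
      (fun p hp hd => by
        have hpt : p ∈ Pt := by
          rcases (Nat.Prime.dvd_mul hp).1 hd with h | h
          · exact (hth.supp x.1 hx1).2.2 p hp h
          · exact (hth'.supp x.2 hx2).2.2 p hp h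
        exact ⟨(hPP p (Finset.mem_union_right _ hpt)).1, Finset.mem_union_right _ hpt⟩)
      hR
      (fun he => by
        rcases ha with h | h
        · exact absurd (h _ he) hx1
        · exact h)
      (fun he => by
        rcases ha' with h | h
        · exact absurd (h _ he) hx2
        · exact h)
  set Y0 : ℝ := (∑ σ, |c σ| * mulc (prP P) (fun p => (p : ℝ) + 1) σ) ^ 2 with hY0
  -- the expansion
  have hexp : (fun n : ℤ => FZ u w P c n ^ 2 * (Ev th D (u j * n + w j) *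
      Ev th' D (u j' * n + w j'))) = (fun n : ℤ => ∑ x ∈ T, (th x.1 * th' x.2) *
        (FZ u w P c n ^ 2 * ((if (x.1 : ℤ) ∣ u j * n + w j then 1 else 0) *
          (if (x.2 : ℤ) ∣ u j' * n + w j' then 1 else 0)))) := by
    funext n
    unfold Ev
    rw [Finset.sum_mul_sum, ← Finset.sum_product', Finset.mul_sum, hT, Finset.sum_filter]
    refine Finset.sum_congr rfl fun x _ => ?_
    by_cases hx1 : th x.1 = 0
    · simp [hx1]
    by_cases hx2 : th' x.2 = 0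
    · simp [hx2]
    by_cases hco : Nat.Coprime x.1 x.2
    · have hcond : Nat.Coprime x.1 x.2 ∧ th x.1 ≠ 0 ∧ th' x.2 ≠ 0 := ⟨hco, hx1, hx2⟩
      rw [if_pos hcond]
      ring
    · have hcond : ¬ (Nat.Coprime x.1 x.2 ∧ th x.1 ≠ 0 ∧ th' x.2 ≠ 0) := fun h => hco h.1
      rw [if_neg hcond]
      have h0 := (key x hx1 hx2).1 hco n
      by_cases hd1 : (x.1 : ℤ) ∣ u j * n + w j
      · by_cases hd2 : (x.2 : ℤ) ∣ u j' * n + w j'
        · exact absurd ⟨hd1, hd2⟩ h0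
        · simp [hd2]
      · simp [hd1]
  have hTmem : ∀ x ∈ T, (1 ≤ x.1 ∧ x.1 ≤ D) ∧ (1 ≤ x.2 ∧ x.2 ≤ D) ∧ Nat.Coprime x.1 x.2 ∧
      th x.1 ≠ 0 ∧ th' x.2 ≠ 0 := by
    intro x hx
    rw [hT, Finset.mem_filter, Finset.mem_product, Finset.mem_Icc, Finset.mem_Icc] at hx
    exact ⟨hx.1.1, hx.1.2, hx.2⟩
  have hEx := hEXM.2.1 (fun p => p ∈ P ∪ Pt) (ℕ × ℕ) T (fun x => th x.1 * th' x.2)
    (fun _ => Y0) (Real.exp (2 * Rc) * (D : ℝ) ^ 2)
    (fun x n => FZ u w P c n ^ 2 * ((if (x.1 : ℤ) ∣ u j * n + w j then 1 else 0) *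
          (if (x.2 : ℤ) ∣ u j' * n + w j' then 1 else 0)))
    (fun x => 1 / ((x.1 : ℝ) * x.2) * Q1g P c (x.1 * x.2))
    (fun x hx => by
      obtain ⟨⟨h11, h12⟩, ⟨h21, h22⟩, hco, hx1, hx2⟩ := hTmem x hx
      refine hEXM.2.2.1 _ _ _ _ _ _ _ _ ((key x hx1 hx2).2 hco) (fun _ h => h) le_rfl ?_
      refine mul_le_mul_of_nonneg_left ?_ (Real.exp_pos _).le
      have e1 : (x.1 : ℝ) ≤ D := by exact_mod_cast h12
      have e2 : (x.2 : ℝ) ≤ D := by exact_mod_cast h22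
      rw [pow_two]
      exact mul_le_mul e1 e2 (Nat.cast_nonneg _) (Nat.cast_nonneg _))
  have habs : ∀ x : ℕ × ℕ, |th x.1 * th' x.2| ≤ B ^ 2 := by
    intro x
    rw [abs_mul, pow_two]
    exact mul_le_mul (hth.bd _) (hth'.bd _) (abs_nonneg _) hB0
  have hTsub : T ⊆ Icc 1 D ×ˢ Icc 1 D := Finset.filter_subset _ _
  have hUsub : U ⊆ Icc 1 D ×ˢ Icc 1 D := Finset.filter_subset _ _
  have hBge1 : 1 ≤ B := by linarith
  refine ⟨∑ x ∈ T, (th x.1 * th' x.2) * (1 / ((x.1 : ℝ) * x.2) * Q1g P c (x.1 * x.2)), ?_, ?_⟩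
  · rw [hexp]
    refine hEXM.2.2.1 _ _ _ _ _ _ _ _ hEx (fun _ h => h) ?_ le_rfl
    have hy := y0_le P c Cc Rc hPpr hCc0 hc hR
    have hS0 : 0 ≤ ∑ σ, |c σ| * mulc (prP P) (fun p => (p : ℝ) + 1) σ :=
      Finset.sum_nonneg fun σ _ => mul_nonneg (abs_nonneg _)
        (mulc_nn P _ (fun p _ => by positivity) σ)
    have hy2 : Y0 ≤ (Cc * (Real.exp Rc * B ^ m1)) ^ 2 := by
      refine pow_le_pow_left₀ hS0 (hy.trans ?_) 2
      gcongr
    have hY00 : 0 ≤ Y0 := pow_nonneg hS0 2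
    have hTc : (T.card : ℝ) ≤ (D : ℝ) ^ 2 := by
      have := Finset.card_le_card hTsub
      rw [Finset.card_product, Nat.card_Icc, Nat.add_sub_cancel] at this
      have h3 : (T.card : ℝ) ≤ ((D * D : ℕ) : ℝ) := by exact_mod_cast this
      rw [pow_two]
      push_cast at h3
      exact h3
    calc ∑ x ∈ T, |th x.1 * th' x.2| * Y0 ≤ ∑ _x ∈ T, B ^ 2 * Y0 :=
          Finset.sum_le_sum fun x _ => mul_le_mul_of_nonneg_right (habs x) hY00
      _ = T.card * (B ^ 2 * Y0) := by rw [Finset.sum_const, nsmul_eq_mul]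
      _ ≤ (D : ℝ) ^ 2 * (B ^ 2 * (Cc * (Real.exp Rc * B ^ m1)) ^ 2) := by gcongr
      _ = Cc ^ 2 * Real.exp (2 * Rc) * D ^ 2 * B ^ (2 + 2 * m1) := by
          have e : Real.exp (2 * Rc) = Real.exp Rc ^ 2 := by
            rw [← Real.exp_nat_mul]
            norm_num
          rw [e]
          ring
      _ ≤ Cc ^ 2 * Real.exp (2 * Rc) * D ^ 2 * B ^ (m2 + 2 * m1 + 9) :=
          mul_le_mul_of_nonneg_left (pow_le_pow_right₀ hBge1 (by omega)) (by positivity)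
  · -- the mean value
    have hPi0 : 0 ≤ ∏ p ∈ P, (1 + 9 * ((k : ℝ) + 2) ^ 2 / ((p : ℝ) - 1)) := by
      refine Finset.prod_nonneg fun p hp => ?_
      have h3 : (2 : ℝ) ≤ (p : ℝ) := by exact_mod_cast (hPpr p hp).two_le
      have h4 : (0 : ℝ) < (p : ℝ) - 1 := by linarith
      positivity
    have hQ1f : |Q1f (prP P) c| ≤ Cc ^ 2 * B ^ m2 :=
      (q1f_le P c Cc hPpr hCc0 hc).trans (mul_le_mul_of_nonneg_left hPi2 (sq_nonneg _))
    have hQ : ∀ x ∈ T, |Q1g P c (x.1 * x.2) - Q1f (prP P) c| ≤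
        Cc ^ 2 * ((4 * B * (18 * ((k : ℝ) + 2) ^ 2 / D')) * B ^ m2) := by
      intro x hx
      obtain ⟨⟨h11, h12⟩, ⟨h21, h22⟩, hco, hx1, hx2⟩ := hTmem x hx
      refine (hFT2 k P c (x.1 * x.2) Cc (fun p hp => ⟨hPpr p hp,
        (hPP p (Finset.mem_union_left _ hp)).1.2.1⟩) hCc0 hc).trans ?_
      refine mul_le_mul_of_nonneg_left ?_ (sq_nonneg _)
      refine mul_le_mul ?_ hPi2 hPi0 (by positivity)
      have hcard : ((P.filter (fun p => p ∣ x.1 * x.2)).card : ℝ) ≤ 4 * B := by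
        have hpos : 0 < x.1 * x.2 := Nat.mul_pos h11 h21
        refine le_trans ?_ (omega_le (x.1 * x.2) N hpos
          (Nat.mul_le_mul (h12.trans hDN) (h22.trans hDN)) (by omega))
        have : P.filter (fun p => p ∣ x.1 * x.2) ⊆ (x.1 * x.2).primeFactors := by
          intro p hp
          rw [Finset.mem_filter] at hp
          exact Nat.mem_primeFactors.2 ⟨hPpr p hp.1, hp.2, hpos.ne'⟩
        exact_mod_cast Finset.card_le_card this
      calc ∑ p ∈ P.filter (fun p => p ∣ x.1 * x.2), 9 * ((k : ℝ) + 2) ^ 2 / ((p : ℝ) - 1) ≤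
            ∑ _p ∈ P.filter (fun p => p ∣ x.1 * x.2), 18 * ((k : ℝ) + 2) ^ 2 / D' := by
            refine Finset.sum_le_sum fun p hp => ?_
            rw [Finset.mem_filter] at hp
            have h3 : (2 : ℝ) ≤ (p : ℝ) := by exact_mod_cast (hPpr p hp.1).two_le
            have h5 := (hPP p (Finset.mem_union_left _ hp.1)).2.1
            have h4 : (0 : ℝ) < (p : ℝ) - 1 := by linarith
            rw [div_le_div_iff₀ h4 hD0]
            nlinarith
        _ = (P.filter (fun p => p ∣ x.1 * x.2)).card * (18 * ((k : ℝ) + 2) ^ 2 / D') := by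
            rw [Finset.sum_const, nsmul_eq_mul]
        _ ≤ _ := by gcongr
    have hsplit : hat th D * hat th' D = ∑ x ∈ T, th x.1 * th' x.2 * (1 / ((x.1 : ℝ) * x.2)) +
        ∑ x ∈ U, th x.1 * th' x.2 * (1 / ((x.1 : ℝ) * x.2)) := by
      unfold hat
      rw [Finset.sum_mul_sum, ← Finset.sum_product', hT, hU, Finset.sum_filter,
        Finset.sum_filter, ← Finset.sum_add_distrib]
      refine Finset.sum_congr rfl fun x _ => ?_
      by_cases hx1 : th x.1 = 0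
      · simp [hx1]
      by_cases hx2 : th' x.2 = 0
      · simp [hx2]
      by_cases hco : Nat.Coprime x.1 x.2
      · have hcond : Nat.Coprime x.1 x.2 ∧ th x.1 ≠ 0 ∧ th' x.2 ≠ 0 := ⟨hco, hx1, hx2⟩
        have hcond2 : ¬ (¬ Nat.Coprime x.1 x.2 ∧ th x.1 ≠ 0 ∧ th' x.2 ≠ 0) := fun h => h.1 hco
        rw [if_pos hcond, if_neg hcond2, add_zero, div_mul_div_comm]
        ring
      · have hcond : ¬ (Nat.Coprime x.1 x.2 ∧ th x.1 ≠ 0 ∧ th' x.2 ≠ 0) := fun h => hco h.1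
        have hcond2 : ¬ Nat.Coprime x.1 x.2 ∧ th x.1 ≠ 0 ∧ th' x.2 ≠ 0 := ⟨hco, hx1, hx2⟩
        rw [if_neg hcond, if_pos hcond2, zero_add, div_mul_div_comm]
        ring
    have hdiff : (∑ x ∈ T, (th x.1 * th' x.2) *
          (1 / ((x.1 : ℝ) * x.2) * Q1g P c (x.1 * x.2))) - hat th D * hat th' D *
            Q1f (prP P) c =
        ∑ x ∈ T, (th x.1 * th' x.2) * (1 / ((x.1 : ℝ) * x.2) *
          (Q1g P c (x.1 * x.2) - Q1f (prP P) c)) -
        (∑ x ∈ U, th x.1 * th' x.2 * (1 / ((x.1 : ℝ) * x.2))) * Q1f (prP P) c := by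
      rw [hsplit, add_mul, Finset.sum_mul T, ← sub_sub, ← Finset.sum_sub_distrib]
      congr 1
      refine Finset.sum_congr rfl fun x _ => ?_
      ring
    rw [hdiff]
    have hA := all_le D N hDN T hTsub
    have hBd := bad_le D N hDN Pt D' hD'
      (fun p hp => (hPP p (Finset.mem_union_right _ hp)).2.1)
      (fun p hp => (hPtpr p hp).one_lt.le) U hUsub (by
        intro x hx
        rw [hU, Finset.mem_filter] at hx
        obtain ⟨l, hl, hl1, hl2⟩ := Nat.Prime.not_coprime_iff_dvd.1 hx.2.1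
        exact ⟨l, (hth.supp _ hx.2.2.1).2.2 l hl hl1, hl1, hl2⟩)
    have hF : |∑ x ∈ T, (th x.1 * th' x.2) * (1 / ((x.1 : ℝ) * x.2) *
          (Q1g P c (x.1 * x.2) - Q1f (prP P) c))| ≤
        (B ^ 2 * (Cc ^ 2 * ((4 * B * (18 * ((k : ℝ) + 2) ^ 2 / D')) * B ^ m2))) *
          (1 + B) ^ 2 := by
      refine (Finset.abs_sum_le_sum_abs _ _).trans ?_
      calc ∑ x ∈ T, |(th x.1 * th' x.2) * (1 / ((x.1 : ℝ) * x.2) *
          (Q1g P c (x.1 * x.2) - Q1f (prP P) c))| ≤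
            ∑ x ∈ T, (B ^ 2 * (Cc ^ 2 * ((4 * B * (18 * ((k : ℝ) + 2) ^ 2 / D')) * B ^ m2))) *
              (1 / ((x.1 : ℝ) * x.2)) := by
            refine Finset.sum_le_sum fun x hx => ?_
            rw [abs_mul (th x.1 * th' x.2), abs_mul (1 / ((x.1 : ℝ) * x.2)),
              abs_of_nonneg (by positivity : (0 : ℝ) ≤ 1 / ((x.1 : ℝ) * x.2))]
            calc |th x.1 * th' x.2| * (1 / ((x.1 : ℝ) * x.2) *
                  |Q1g P c (x.1 * x.2) - Q1f (prP P) c|) ≤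
                B ^ 2 * (1 / ((x.1 : ℝ) * x.2) *
                  (Cc ^ 2 * ((4 * B * (18 * ((k : ℝ) + 2) ^ 2 / D')) * B ^ m2))) := by
                  have := hQ x hx
                  have := habs x
                  gcongr
              _ = _ := by ring
        _ = (B ^ 2 * (Cc ^ 2 * ((4 * B * (18 * ((k : ℝ) + 2) ^ 2 / D')) * B ^ m2))) *
              ∑ x ∈ T, 1 / ((x.1 : ℝ) * x.2) := by rw [Finset.mul_sum]
        _ ≤ _ := by gcongr
    have hG : |(∑ x ∈ U, th x.1 * th' x.2 * (1 / ((x.1 : ℝ) * x.2))) * Q1f (prP P) c| ≤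
        (B ^ 2 * ((1 + B) ^ 2 * (2 / D'))) * (Cc ^ 2 * B ^ m2) := by
      rw [abs_mul]
      refine mul_le_mul ?_ hQ1f (abs_nonneg _) (by positivity)
      refine (Finset.abs_sum_le_sum_abs _ _).trans ?_
      calc ∑ x ∈ U, |th x.1 * th' x.2 * (1 / ((x.1 : ℝ) * x.2))| ≤
            ∑ x ∈ U, B ^ 2 * (1 / ((x.1 : ℝ) * x.2)) := by
            refine Finset.sum_le_sum fun x _ => ?_
            rw [abs_mul (th x.1 * th' x.2),
              abs_of_nonneg (by positivity : (0 : ℝ) ≤ 1 / ((x.1 : ℝ) * x.2))]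
            exact mul_le_mul_of_nonneg_right (habs x) (by positivity)
        _ = B ^ 2 * ∑ x ∈ U, 1 / ((x.1 : ℝ) * x.2) := by rw [Finset.mul_sum]
        _ ≤ _ := by gcongr
    refine (abs_sub _ _).trans ((add_le_add hF hG).trans ?_)
    have hnum : B ^ 2 * (1 + B) ^ 2 * (4 * B * (18 * ((k : ℝ) + 2) ^ 2) + 2) ≤ B ^ 9 := by
      have e1 : (1 + B) ≤ B ^ 2 := by nlinarith
      have e2 : 4 * B * (18 * ((k : ℝ) + 2) ^ 2) + 2 ≤ B ^ 3 := by
        have : 4 * B * (18 * ((k : ℝ) + 2) ^ 2) ≤ B * (B - 4) := by nlinarith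
        nlinarith [pow_pos (by linarith : (0 : ℝ) < B) 2]
      calc B ^ 2 * (1 + B) ^ 2 * (4 * B * (18 * ((k : ℝ) + 2) ^ 2) + 2) ≤
            B ^ 2 * (B ^ 2) ^ 2 * B ^ 3 := by gcongr
        _ = B ^ 9 := by ring
    calc (B ^ 2 * (Cc ^ 2 * ((4 * B * (18 * ((k : ℝ) + 2) ^ 2 / D')) * B ^ m2))) *
          (1 + B) ^ 2 + (B ^ 2 * ((1 + B) ^ 2 * (2 / D'))) * (Cc ^ 2 * B ^ m2) =
        Cc ^ 2 * B ^ m2 * (B ^ 2 * (1 + B) ^ 2 * (4 * B * (18 * ((k : ℝ) + 2) ^ 2) + 2)) / D' := by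
          field_simp
      _ ≤ Cc ^ 2 * B ^ m2 * B ^ 9 / D' := by gcongr
      _ = Cc ^ 2 * B ^ (m2 + 9) / D' := by ring
      _ ≤ Cc ^ 2 * B ^ (m2 + 2 * m1 + 9) / D' :=
          div_le_div_of_nonneg_right (mul_le_mul_of_nonneg_left
            (pow_le_pow_right₀ hBge1 (by omega)) (sq_nonneg _)) hD0.le

end Pool.Agent.W494.UB.FT3
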