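import Mathlib
import Pool.Agent.W25.UB.Stm3

/-! Project UB (helper25), task L1: the first moments from below. -/

set_option autoImplicit false

namespace Pool.Agent.W494.UB.L1

open Finset Filter Topology
open Pool.Agent.H410R2 (cw mulc lgt BD WW)
open Pool.Agent.H361R2.GM
open Pool.Agent.H362R2.CM (IP prP)
open Pool.Agent.W25.UN (Q1f uB wB CL)
open Pool.Agent.W25.UB
open Pool.Agent.W23.PL (DW Ev hat xx)
open Pool.Agent.H442R2.KF (Wt)

/-- the trivial coefficients -/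
noncomputable def one1 : ℕ → ℝ := fun e => if e = 1 then 1 else 0

theorem one1_ne {e : ℕ} (h : one1 e ≠ 0) : e = 1 := by
  by_contra hc
  exact h (if_neg hc)

theorem Ev_one (D : ℕ) (hD : 1 ≤ D) (m : ℤ) : Ev one1 D m = 1 := by
  unfold Ev one1
  rw [Finset.sum_eq_single 1]
  · simp
  · intro e _ he
    simp [he]
  · intro h
    exact absurd (Finset.mem_Icc.2 ⟨le_rfl, hD⟩) h

theorem hat_one (D : ℕ) (hD : 1 ≤ D) : hat one1 D = 1 := by
  unfold hat one1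
  rw [Finset.sum_eq_single 1]
  · simp
  · intro e _ he
    simp [he]
  · intro h
    exact absurd (Finset.mem_Icc.2 ⟨le_rfl, hD⟩) h

theorem ds_one (D : ℕ) (hD : 1 ≤ D) (m : ℤ) : ds one1 D m = 1 := by
  unfold ds one1
  rw [Finset.sum_eq_single 1]
  · simp
  · intro e _ he
    simp [he]
  · intro h
    exact absurd (Finset.mem_Icc.2 ⟨le_rfl, hD⟩) h

theorem sum_one (D : ℕ) (hD : 1 ≤ D) : ∑ d ∈ Icc 1 D, one1 d / (d : ℝ) = 1 := hat_one D hD

theorem one1_le (e : ℕ) : |one1 e| ≤ 1 := by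
  unfold one1
  split_ifs <;> simp

theorem DW_one (P : Finset ℕ) (D : ℕ) (U : ℝ) (hD : 1 ≤ D) (hU : 1 ≤ U) : DW P D U one1 where
  bd e := (one1_le e).trans hU
  supp e he := by
    have h1 := one1_ne he
    subst h1
    exact ⟨squarefree_one, hD, fun p hp h1 => absurd (Nat.dvd_one.1 h1) hp.one_lt.ne'⟩

theorem RCM_one (Cl : Finset ℕ) (y : ℝ) (Z : ℕ) (M : ℝ) (hZ : 1 ≤ Z) (hM : 1 ≤ M) :
    RCM Cl y Z M one1 where
  bd e := (one1_le e).trans hM
  supp e he := by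
    have h1 := one1_ne he
    subst h1
    exact ⟨le_rfl, hZ, fun p hp h1 => absurd (Nat.dvd_one.1 h1) hp.one_lt.ne'⟩

theorem Wt_nn (N : ℕ) (n : ℤ) : 0 ≤ Wt N n := (Real.exp_pos _).le

variable {k : ℕ} {Q : SPar} {α h : Fin k → ℤ} {ε₀ ε₁ ρ ρ₁ ε M C1 : ℝ}
  {A E₁ D B N v D₁ z : ℕ} {Tr : ℤ → ℝ} {t : ℝ} {th dl b : ℕ → ℝ}

/-- the master formula for one form -/
theorem mas_use (H : Dat Q α h ε₀ ε₁ ρ ρ₁ ε M C1 A E₁ D B N v D₁ z Tr t th dl b)
    (y : (IP (PB α h N B ρ₁) → Option (Option (Fin k))) → ℝ)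
    (hy1 : ∀ σ, |y σ| ≤ (Real.log N) ^ E₁)
    (hy2 : ∀ σ, y σ ≠ 0 → lgt (prP (PB α h N B ρ₁)) σ ≤ 3 * (ρ * Real.log N))
    (j j' : Fin k) (hjj : j ≠ j') (hy3 : ∀ σ, y σ ≠ 0 → ∀ t, σ t ≠ some (some j))
    (th0 : ℕ → ℝ) (hth : DW (Pt α h N B ε₁) D₁ (Real.log (2 * N : ℕ)) th0) :
    Summable (fun n : ℤ => Wt (2 * N) n * (((if ((WW D / 2 : ℕ) : ℤ) ∣ n - v then 1 else 0) *
      Tr n) * FZ (uB α) (wB h N) (PB α h N B ρ₁) (cw (prP (PB α h N B ρ₁)) y) n ^ 2) *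
      (Ev th0 D₁ (Lf α h N (some j) n) * ds b (z ^ 2) (Lf α h N (some j) n))) ∧
    |∑' n : ℤ, Wt (2 * N) n * (((if ((WW D / 2 : ℕ) : ℤ) ∣ n - v then 1 else 0) *
      Tr n) * FZ (uB α) (wB h N) (PB α h N B ρ₁) (cw (prP (PB α h N B ρ₁)) y) n ^ 2) *
      (Ev th0 D₁ (Lf α h N (some j) n) * ds b (z ^ 2) (Lf α h N (some j) n)) -
      ((2 * N : ℕ) : ℝ) * (t / (WW D / 2 : ℕ) * (hat th0 D₁ *
        Q1f (prP (PB α h N B ρ₁)) (cw (prP (PB α h N B ρ₁)) y)) *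
        (1 / GG (Pb α h N z ε₁) z))| ≤ ((2 * N : ℕ) : ℝ) / (Real.log N) ^ A := by
  have hp2 : ∀ t : IP (PB α h N B ρ₁), 2 ≤ prP (PB α h N B ρ₁) t := fun t =>
    ((H.gd t.1 (Finset.mem_union_left _ t.2)).1.1).two_le
  have hz1 : 1 ≤ z ^ 2 := Nat.one_le_pow _ _ H.z1
  have hm := H.mas (2 * N) (z ^ 2) (cw (prP (PB α h N B ρ₁)) y) j j' th0 one1 b one1 (Or.inl rfl)
    H.z2 hjj
    (fun σ => by
      rw [Pool.Agent.H410R2.abs_cw _ hp2, mul_comm]
      refine mul_le_mul_of_nonneg_right (hy1 σ) ?_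
      unfold mulc
      refine Finset.prod_nonneg fun t _ => ?_
      split_ifs
      · exact zero_le_one
      · have : (2 : ℝ) ≤ (prP (PB α h N B ρ₁) t : ℝ) := by exact_mod_cast hp2 t
        have : (0 : ℝ) < (prP (PB α h N B ρ₁) t : ℝ) - 1 := by linarith
        positivity)
    (fun σ hσ => by
      have h1 := hy2 σ (fun h0 => hσ (by unfold cw; rw [h0, mul_zero]))
      linarith)
    hth (DW_one _ _ _ H.D1 (H.l1.trans (Real.log_le_log (by
      have := H.N8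
      exact_mod_cast (by omega : 0 < N)) (by
      push_cast
      have : (0 : ℝ) ≤ (N : ℝ) := Nat.cast_nonneg N
      linarith))))
    (Or.inr fun σ hσ => hy3 σ (fun h0 => hσ (by unfold cw; rw [h0, mul_zero])))
    (Or.inl fun e he => if_neg he) H.bM (RCM_one _ _ _ _ hz1 H.M1)
  have e1 : ∀ n : ℤ, Wt (2 * N) n * Ms α h N D v D₁ (z ^ 2) (PB α h N B ρ₁) Tr
      (cw (prP (PB α h N B ρ₁)) y) j j' th0 one1 b one1 n =
      Wt (2 * N) n * (((if ((WW D / 2 : ℕ) : ℤ) ∣ n - v then 1 else 0) *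
      Tr n) * FZ (uB α) (wB h N) (PB α h N B ρ₁) (cw (prP (PB α h N B ρ₁)) y) n ^ 2) *
      (Ev th0 D₁ (Lf α h N (some j) n) * ds b (z ^ 2) (Lf α h N (some j) n)) := by
    intro n
    unfold Ms
    rw [Ev_one _ H.D1, ds_one _ hz1]
    ring
  have e2 : Mm D D₁ (z ^ 2) (PB α h N B ρ₁) t (cw (prP (PB α h N B ρ₁)) y) th0 one1 b one1 =
      t / (WW D / 2 : ℕ) * (hat th0 D₁ *
        Q1f (prP (PB α h N B ρ₁)) (cw (prP (PB α h N B ρ₁)) y)) *
        (1 / GG (Pb α h N z ε₁) z) := by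
    unfold Mm
    rw [hat_one _ H.D1, sum_one _ hz1, H.bs]
    ring
  simp only [e1, e2] at hm
  exact hm

/-- the weights with the coordinate `j` removed -/
theorem mu_sj (hNWE : St_NWE) (H : Dat Q α h ε₀ ε₁ ρ ρ₁ ε M C1 A E₁ D B N v D₁ z Tr t th dl b)
    (i j : Fin k) (n : ℤ) :
    mu Q α h ρ ρ₁ D B N v Tr i n * sj α h ε₁ B N z b j n =
      Wt (2 * N) n * (((if ((WW D / 2 : ℕ) : ℤ) ∣ n - v then 1 else 0) *
      Tr n) * FZ (uB α) (wB h N) (PB α h N B ρ₁) (cw (prP (PB α h N B ρ₁))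
        (zB Q k (PB α h N B ρ₁) (ρ * Real.log N) i j)) n ^ 2) *
      (xx (Pt α h N B ε₁) (Lf α h N (some j) n) * ds b (z ^ 2) (Lf α h N (some j) n)) := by
  unfold mu sj
  by_cases hx : ∀ p ∈ Pt α h N B ε₁, ¬ (p : ℤ) ∣ Lf α h N (some j) n
  · have h1 := (hNWE k (uB α) (wB h N) (PB α h N B ρ₁)
      (fun p hp => ((H.gd p (Finset.mem_union_left _ hp)).1.1).two_le)).1 (some j) 0
      (zA Q k (PB α h N B ρ₁) (ρ * Real.log N) i) n le_rfl
      (fun p hp => hx p (H.sub hp))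
    have h2 : FZ (uB α) (wB h N) (PB α h N B ρ₁) (cw (prP (PB α h N B ρ₁))
        (zB Q k (PB α h N B ρ₁) (ρ * Real.log N) i j)) n =
        FZ (uB α) (wB h N) (PB α h N B ρ₁) (cw (prP (PB α h N B ρ₁))
        (zA Q k (PB α h N B ρ₁) (ρ * Real.log N) i)) n := h1
    rw [h2]
  · have h1 : xx (Pt α h N B ε₁) (Lf α h N (some j) n) = 0 := by
      unfold xx
      rw [if_neg hx]
    rw [h1]
    ring

theorem main (hNWU : St_NWU) (hNWE : St_NWE) : St_L1 := by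
  intro k Q α h ε₀ ε₁ ρ ρ₁ ε M C1 A E₁ D B N v D₁ z Tr t th dl b hI1 hI2 hεI1 hεI2 hBr H i j hij
  -- a third index
  obtain ⟨l, hil, hjl⟩ : ∃ l : Fin k, i ≠ l ∧ j ≠ l := by
    have hk := H.k3
    by_contra hc
    push Not at hc
    have h1 : (Finset.univ : Finset (Fin k)) ⊆ {i, j} := by
      intro l _
      rw [Finset.mem_insert, Finset.mem_singleton]
      by_cases hl : i = l
      · exact Or.inl hl.symm
      · exact Or.inr (hc l hl).symm
    have h2 := Finset.card_le_card h1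
    rw [Finset.card_univ, Fintype.card_fin] at h2
    have h3 : ({i, j} : Finset (Fin k)).card ≤ 2 := Finset.card_le_two
    omega
  have hl0 : 0 < Real.log N := lt_of_lt_of_le one_pos H.l1
  have hnwu := hNWU k Q (PB α h N B ρ₁) (ρ * Real.log N) i j l hij hil hjl (mul_pos H.ρ0 hl0)
    (fun p hp => (H.gd p (Finset.mem_union_left _ hp)).1.1)
  set y := zB Q k (PB α h N B ρ₁) (ρ * Real.log N) i j with hy
  have hu := fun (th0 : ℕ → ℝ) (hth : DW (Pt α h N B ε₁) D₁ (Real.log (2 * N : ℕ)) th0) =>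
    mas_use H y (fun σ => ((hnwu.2.2.2.1 σ).2.1).trans H.size) (fun σ hσ => (hnwu.2.1 σ hσ).1)
      j i hij.symm (fun σ hσ => (hnwu.2.1 σ hσ).2) th0 hth
  obtain ⟨hs1, ha1⟩ := hu th H.dth
  obtain ⟨hs2, ha2⟩ := hu dl H.ddl
  simp_rw [mu_sj hNWE H i j]
  rw [← hy]
  set KK : ℤ → ℝ := fun n => Wt (2 * N) n * (((if ((WW D / 2 : ℕ) : ℤ) ∣ n - v then 1 else 0) *
      Tr n) * FZ (uB α) (wB h N) (PB α h N B ρ₁) (cw (prP (PB α h N B ρ₁)) y) n ^ 2) with hKK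
  have hK0 : ∀ n, 0 ≤ KK n := by
    intro n
    refine mul_nonneg (Wt_nn _ _) (mul_nonneg (mul_nonneg ?_ (H.Tr0 n)) (sq_nonneg _))
    split_ifs <;> norm_num
  have hxx0 : ∀ m : ℤ, 0 ≤ xx (Pt α h N B ε₁) m := by
    intro m
    unfold xx
    split_ifs <;> norm_num
  have hup : ∀ n : ℤ, KK n * (xx (Pt α h N B ε₁) (Lf α h N (some j) n) *
      ds b (z ^ 2) (Lf α h N (some j) n)) ≤ KK n * (Ev th D₁ (Lf α h N (some j) n) *
      ds b (z ^ 2) (Lf α h N (some j) n)) := fun n =>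
    mul_le_mul_of_nonneg_left (mul_le_mul_of_nonneg_right (H.fl _).1 (H.bn _)) (hK0 n)
  have hlow : ∀ n : ℤ, KK n * (Ev th D₁ (Lf α h N (some j) n) *
      ds b (z ^ 2) (Lf α h N (some j) n)) - KK n * (Ev dl D₁ (Lf α h N (some j) n) *
      ds b (z ^ 2) (Lf α h N (some j) n)) ≤ KK n * (xx (Pt α h N B ε₁) (Lf α h N (some j) n) *
      ds b (z ^ 2) (Lf α h N (some j) n)) := by
    intro n
    have h1 := (H.fl (Lf α h N (some j) n)).2
    have h2 : Ev th D₁ (Lf α h N (some j) n) - Ev dl D₁ (Lf α h N (some j) n) ≤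
        xx (Pt α h N B ε₁) (Lf α h N (some j) n) := by linarith
    have h3 := mul_le_mul_of_nonneg_left (mul_le_mul_of_nonneg_right h2
      (H.bn (Lf α h N (some j) n))) (hK0 n)
    calc _ = KK n * ((Ev th D₁ (Lf α h N (some j) n) - Ev dl D₁ (Lf α h N (some j) n)) *
          ds b (z ^ 2) (Lf α h N (some j) n)) := by ring
      _ ≤ _ := h3
  have hsum : Summable (fun n : ℤ => KK n * (xx (Pt α h N B ε₁) (Lf α h N (some j) n) *
      ds b (z ^ 2) (Lf α h N (some j) n))) :=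
    Summable.of_nonneg_of_le (fun n => mul_nonneg (hK0 n) (mul_nonneg (hxx0 _) (H.bn _))) hup hs1
  refine ⟨hsum, ?_⟩
  have htsum := Summable.tsum_le_tsum hlow (hs1.sub hs2) hsum
  rw [hs1.tsum_sub hs2] at htsum
  refine le_trans ?_ htsum
  set S1 := ∑' n : ℤ, KK n * (Ev th D₁ (Lf α h N (some j) n) *
      ds b (z ^ 2) (Lf α h N (some j) n)) with hS1
  set S2 := ∑' n : ℤ, KK n * (Ev dl D₁ (Lf α h N (some j) n) *
      ds b (z ^ 2) (Lf α h N (some j) n)) with hS2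
  have hb1 := (abs_le.1 ha1).1
  have hb2 := (abs_le.1 ha2).2
  have hlw := H.low hBr i j hij
  rw [← hy] at hlw
  set q1 := Q1f (prP (PB α h N B ρ₁)) (cw (prP (PB α h N B ρ₁)) y) with hq1
  set G := GG (Pb α h N z ε₁) z with hG
  set V := Pool.Agent.W23.PL.VV (Pt α h N B ε₁) with hV
  set V' := Pool.Agent.W25.UN.VV α h N D (DB (2 * N) B) with hV'
  set β := bb N B ρ with hβ
  set w : ℝ := ((WW D / 2 : ℕ) : ℝ) with hw
  set X : ℝ := ((2 * N : ℕ) : ℝ) with hX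
  set er : ℝ := X / (Real.log N) ^ A with her
  have hG1 : 1 ≤ G := H.G1
  have hG0 : 0 < G := lt_of_lt_of_le one_pos hG1
  have hV0 : 0 < V := H.V0
  have hV1 : V ≤ 1 := H.V1
  have hVp : 0 < V' := H.Vp
  have hβ1 : 1 ≤ β := H.b1
  have hβ0 : 0 < β := lt_of_lt_of_le one_pos hβ1
  have hw1 : 1 ≤ w := by
    rw [hw]
    exact_mod_cast H.W2
  have hw0 : 0 < w := lt_of_lt_of_le one_pos hw1
  have hX0 : 0 ≤ X := Nat.cast_nonneg _
  have he0 : 0 < ε := H.ε0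
  have he3 : ε < 1 / 3 := H.ε3
  have he10 : 0 < ε₁ := H.e10
  have he11 : ε₁ ≤ 1 / 2 := H.e11
  have he13 : ε₁ ^ 3 ≤ 1 / 8 := by
    calc ε₁ ^ 3 ≤ (1 / 2 : ℝ) ^ 3 := pow_le_pow_left₀ he10.le he11 3
      _ = 1 / 8 := by norm_num
  -- the parameters
  have ht1 : V' * (1 - ε) ≤ t := by
    have := (abs_le.1 H.t1).1
    linarith
  have hd1 : V * (1 - 2 * ε₁ ^ 3) ≤ hat th D₁ - hat dl D₁ := by
    have h1 := (abs_le.1 H.hth).1
    have h2 := (abs_le.1 H.hdl).2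
    linarith
  set qq : ℝ := (1 - ε) ^ 4 * (Q.I1 - ε) ^ 4 / (1 + ε) ^ 2 * (1 - ε) * Br2 Q k ε with hqq
  have hqq0 : 0 ≤ qq := by
    have h1 : 0 < 1 - ε := by linarith
    have h2 : 0 < Q.I1 - ε := by linarith
    positivity
  have hpow : β ^ k = β ^ (k - 2) * β ^ 2 := by
    rw [← pow_add]
    congr 1
    have := H.k3
    omega
  have hq1' : β / 48 * β ^ k * β * qq ≤ q1 := by
    refine le_trans (le_of_eq ?_) hlw
    rw [hpow, hqq]
    have h3 : (1 + ε) ≠ 0 := by linarith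
    field_simp
  have hMM : MM α h D N B ρ = X * (V' / w * (β / 48 * β ^ k)) := rfl
  have hvG : vG α h N B z ε₁ = V / G := rfl
  have hmain : MM α h D N B ρ * (vG α h N B z ε₁ * β) * ((1 - ε) * (1 - 2 * ε₁ ^ 3) * qq) ≤
      X * (t / w * ((hat th D₁ - hat dl D₁) * q1) * (1 / G)) := by
    have h1 : 0 < 1 - ε := by linarith
    have h2 : 0 < 1 - 2 * ε₁ ^ 3 := by linarith
    calc MM α h D N B ρ * (vG α h N B z ε₁ * β) * ((1 - ε) * (1 - 2 * ε₁ ^ 3) * qq) =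
          X * ((V' * (1 - ε)) / w * ((V * (1 - 2 * ε₁ ^ 3)) * (β / 48 * β ^ k * β * qq)) *
            (1 / G)) := by
          rw [hMM, hvG]
          ring
      _ ≤ X * (t / w * ((hat th D₁ - hat dl D₁) * q1) * (1 / G)) := by
          have h3 : 0 ≤ β / 48 * β ^ k * β * qq := by positivity
          have h4 : 0 ≤ V * (1 - 2 * ε₁ ^ 3) := by positivity
          have h5 : 0 ≤ V' * (1 - ε) := by positivity
          have h6 : (V * (1 - 2 * ε₁ ^ 3)) * (β / 48 * β ^ k * β * qq) ≤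
              (hat th D₁ - hat dl D₁) * q1 := mul_le_mul hd1 hq1' h3 (h4.trans hd1)
          have h7 : (V' * (1 - ε)) / w ≤ t / w := div_le_div_of_nonneg_right ht1 hw0.le
          have h8 : 0 ≤ (V * (1 - 2 * ε₁ ^ 3)) * (β / 48 * β ^ k * β * qq) := mul_nonneg h4 h3
          have h9 : 0 ≤ t / w := le_trans (by positivity) h7
          refine mul_le_mul_of_nonneg_left (mul_le_mul_of_nonneg_right
            (mul_le_mul h7 h6 h8 h9) (by positivity)) hX0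
  have hMM0 : 0 ≤ MM α h D N B ρ := by
    rw [hMM]
    positivity
  have hv0 : 0 ≤ vG α h N B z ε₁ := by
    rw [hvG]
    positivity
  have hv1 : vG α h N B z ε₁ ≤ 1 := by
    rw [hvG, div_le_one hG0]
    linarith
  have hsm : 2 * er ≤ ε * (MM α h D N B ρ * vG α h N B z ε₁ ^ 2) := by
    refine le_trans (le_of_eq ?_) H.small
    rw [her, hX]
    push_cast
    ring
  have hsm2 : ε * (MM α h D N B ρ * vG α h N B z ε₁ ^ 2) ≤
      MM α h D N B ρ * (vG α h N B z ε₁ * β) * (2 * ε) := by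
    have h1 : vG α h N B z ε₁ ^ 2 ≤ vG α h N B z ε₁ * β := by
      rw [pow_two]
      exact mul_le_mul_of_nonneg_left (hv1.trans hβ1) hv0
    have h2 := mul_le_mul_of_nonneg_left h1 hMM0
    have h3 : 0 ≤ MM α h D N B ρ * (vG α h N B z ε₁ * β) := by positivity
    nlinarith
  have hexp : X * (t / w * ((hat th D₁ - hat dl D₁) * q1) * (1 / G)) =
      X * (t / w * (hat th D₁ * q1) * (1 / G)) - X * (t / w * (hat dl D₁ * q1) * (1 / G)) := by
    ring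
  calc MM α h D N B ρ * (vG α h N B z ε₁ * β) *
        ((1 - ε) * (1 - 2 * ε₁ ^ 3) * qq - 2 * ε) =
      MM α h D N B ρ * (vG α h N B z ε₁ * β) * ((1 - ε) * (1 - 2 * ε₁ ^ 3) * qq) -
        MM α h D N B ρ * (vG α h N B z ε₁ * β) * (2 * ε) := by ring
    _ ≤ S1 - S2 := by linarith

end Pool.Agent.W494.UB.L1
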